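import Mathlib

/-!
# The converse of the stepping-up lemma under GCH

Let `κ` be an infinite cardinal. If `κ ↛ (η_k; k < γ)^n`, where the `η_k` are cardinals, then
`κ⁺ ↛ (η_k ∔ 1; k < γ)^(n+1)`. Under GCH, `2 ^ κ = κ⁺`, so this is the converse of the stepping-up
lemma, without any restriction on the sequence `η_k`.

Proof: fix a colouring `c` of `[κ]^n` which witnesses the hypothesis and, for each `ξ < κ⁺`, an
injection `e ξ` of `ξ` into `κ`. Colour the set `a ∪ {ξ}`, where `a ⊆ ξ` has `n` elements, with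
`c (e ξ '' a)`. If `H ∪ {ξ}` were homogeneous with colour `k`, where `H ⊆ ξ` has order type `η_k`,
then so would be the set `e ξ '' H` of cardinality `η_k`, and this set of ordinals has a subset of
order type `η_k`.
-/

set_option autoImplicit false

open Cardinal Set

universe u

namespace Pool.Agent.Results.MP_2e9b9b_lc.SteppingUpConverse

/-- The partition relation `κ → (η_k; k < γ)^m`: for every colouring `c` of the `m`-element subsets
of `κ` with `γ` colours there are a colour `k` and a set `H ⊆ κ` of order type `η_k` such that all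
`m`-element subsets of `H` have colour `k`. -/
def Arrow (κ γ : Cardinal.{u}) (η : γ.ord.ToType → Ordinal.{u}) (m : ℕ) : Prop :=
  ∀ c : {a : Finset κ.ord.ToType // a.card = m} → γ.ord.ToType,
    ∃ (k : γ.ord.ToType) (H : Set κ.ord.ToType),
      Ordinal.type (fun x y : H => x < y) = η k ∧
      ∀ a : {a : Finset κ.ord.ToType // a.card = m}, (a.1 : Set κ.ord.ToType) ⊆ H → c a = k

/-- injections of the proper initial segments of `κ⁺` into `κ` -/
theorem exists_inj (κ : Cardinal.{u}) (hκ : ℵ₀ ≤ κ) :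
    ∃ e : (Order.succ κ).ord.ToType → (Order.succ κ).ord.ToType → κ.ord.ToType,
      ∀ ξ, InjOn (e ξ) (Iio ξ) := by
  classical
  have hne : Nonempty κ.ord.ToType := by
    rw [← mk_ne_zero_iff, mk_ord_toType]
    exact (aleph0_pos.trans_le hκ).ne'
  have h1 : ∀ ξ : (Order.succ κ).ord.ToType, Nonempty (Iio ξ ↪ κ.ord.ToType) := by
    intro ξ
    rw [← Cardinal.le_def, mk_ord_toType, ← Order.lt_succ_iff]
    have h2 := Cardinal.mk_Iio_lt ξ (by rw [mk_ord_toType]; exact (Ordinal.type_toType _).symm)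
    rwa [mk_ord_toType] at h2
  refine ⟨fun ξ x => if h : x < ξ then (h1 ξ).some ⟨x, h⟩ else hne.some, fun ξ x hx y hy hxy => ?_⟩
  have hx' : x < ξ := hx
  have hy' : y < ξ := hy
  simp only [hx', hy', dif_pos] at hxy
  exact congrArg Subtype.val ((h1 ξ).some.injective hxy)

/-- a set of order type `o ∔ 1` has a largest element, above a subset of cardinality `|o|` -/
theorem exists_max {X : Type u} [LinearOrder X] [WellFoundedLT X] {H : Set X} {o : Ordinal.{u}}
    (h : Ordinal.type (fun x y : H => x < y) = Order.succ o) :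
    ∃ ξ ∈ H, ∃ A ⊆ H, (∀ x ∈ A, x < ξ) ∧ #A = o.card := by
  have h1 : Ordinal.type (Sum.Lex (fun x y : o.ToType => x < y) (@emptyRelation PUnit.{u + 1})) =
      Ordinal.type (fun x y : H => x < y) := by
    rw [Ordinal.type_sum_lex, h, Order.succ_eq_add_one]
    congr 1
    · exact Ordinal.type_toType o
  obtain ⟨ψ⟩ := Ordinal.type_eq.1 h1
  refine ⟨(ψ (Sum.inr PUnit.unit)).1, (ψ _).2, range fun x : o.ToType => (ψ (Sum.inl x)).1, ?_, ?_,
    ?_⟩
  · rintro _ ⟨x, rfl⟩
    exact (ψ _).2
  · rintro _ ⟨x, rfl⟩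
    exact ψ.map_rel_iff.2 (Sum.Lex.sep _ _)
  · rw [mk_range_eq _ ?_, Cardinal.mk_toType]
    intro x y hxy
    exact Sum.inl_injective (ψ.injective (Subtype.ext hxy))

/-- a set of cardinality `η` has a subset of order type `η` -/
theorem exists_sub {X : Type u} [LinearOrder X] [WellFoundedLT X] (B : Set X) :
    ∃ K ⊆ B, Ordinal.type (fun x y : K => x < y) = (#B).ord := by
  have h1 : Ordinal.type (fun x y : (#B).ord.ToType => x < y) ≤
      Ordinal.type (fun x y : B => x < y) := by
    have h2 : Ordinal.type (fun x y : (#B).ord.ToType => x < y) = (#B).ord :=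
      Ordinal.type_toType _
    rw [h2, ord_le, Ordinal.card_type]
  obtain ⟨φ⟩ := Ordinal.type_le_iff'.1 h1
  let f : (#B).ord.ToType → range fun x => (φ x).1 := fun x => ⟨(φ x).1, x, rfl⟩
  have hf : Function.Bijective f := by
    constructor
    · intro x y hxy
      have h3 : (φ x).1 = (φ y).1 := Subtype.mk.inj hxy
      exact φ.injective (Subtype.ext h3)
    · rintro ⟨_, x, rfl⟩
      exact ⟨x, rfl⟩
  refine ⟨range fun x => (φ x).1, ?_, ?_⟩
  · rintro _ ⟨x, rfl⟩
    exact (φ x).2
  · have h2 : Ordinal.type (fun x y : (#B).ord.ToType => x < y) =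
        Ordinal.type (fun x y : range fun x => (φ x).1 => x < y) := by
      refine Ordinal.type_eq.2 ⟨⟨Equiv.ofBijective f hf, ?_⟩⟩
      intro x y
      exact φ.map_rel_iff
    rw [← h2]
    exact Ordinal.type_toType _

/-- the relation for `κ⁺` fails when the relation for `κ` fails -/
theorem step (κ γ : Cardinal.{u}) (hκ : ℵ₀ ≤ κ) (n : ℕ) (η : γ.ord.ToType → Cardinal.{u})
    (h : ¬ Arrow κ γ (fun k => (η k).ord) n) :
    ¬ Arrow (Order.succ κ) γ (fun k => Order.succ (η k).ord) (n + 1) := by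
  classical
  unfold Arrow at h
  push Not at h
  obtain ⟨c, hc⟩ := h
  obtain ⟨e, he⟩ := exists_inj κ hκ
  -- the set `e ξ '' a` for an `(n + 1)`-element set `a ∪ {ξ}`
  have hne : ∀ a : {a : Finset (Order.succ κ).ord.ToType // a.card = n + 1}, a.1.Nonempty :=
    fun a => Finset.card_pos.1 (by rw [a.2]; omega)
  have hcard : ∀ a : {a : Finset (Order.succ κ).ord.ToType // a.card = n + 1},
      ((a.1.erase (a.1.max' (hne a))).image (e (a.1.max' (hne a)))).card = n := by
    intro a
    rw [Finset.card_image_of_injOn, Finset.card_erase_of_mem (Finset.max'_mem _ _), a.2]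
    · rfl
    · refine (he _).mono ?_
      intro x hx
      rw [Finset.mem_coe, Finset.mem_erase] at hx
      exact lt_of_le_of_ne (Finset.le_max' _ _ hx.2) hx.1
  intro hA
  obtain ⟨k, H, hH, hhom⟩ := hA fun a => c ⟨_, hcard a⟩
  obtain ⟨ξ, hξ, A, hAH, hAξ, hAc⟩ := exists_max hH
  rw [card_ord] at hAc
  -- a subset of order type `η k` of the image of `A`
  have hB : #(e ξ '' A) = η k := by
    rw [mk_image_eq_of_injOn _ _ ((he ξ).mono hAξ), hAc]
  obtain ⟨K, hKB, hK⟩ := exists_sub (e ξ '' A)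
  rw [hB] at hK
  obtain ⟨s, hsK, hs⟩ := hc k K hK
  apply hs
  -- the preimage of `s`
  have hne' : Nonempty (Order.succ κ).ord.ToType := ⟨ξ⟩
  have h1 : ∀ y ∈ s.1, ∃ x ∈ A, e ξ x = y := fun y hy => hKB (hsK hy)
  choose! f hfA hf using h1
  let t : Finset (Order.succ κ).ord.ToType := s.1.image f
  have htA : ∀ x ∈ t, x ∈ A := by
    intro x hx
    obtain ⟨y, hy, rfl⟩ := Finset.mem_image.1 hx
    exact hfA y hy
  have hξt : ξ ∉ t := fun hx => lt_irrefl _ (hAξ _ (htA _ hx))
  have htc : t.card = n := by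
    rw [Finset.card_image_of_injOn, s.2]
    intro x hx y hy hxy
    rw [← hf x hx, ← hf y hy, hxy]
  have htimg : t.image (e ξ) = s.1 := by
    rw [Finset.image_image]
    ext y
    rw [Finset.mem_image]
    constructor
    · rintro ⟨x, hx, rfl⟩
      rw [Function.comp_apply, hf x hx]
      exact hx
    · exact fun hy => ⟨y, hy, hf y hy⟩
  let a : {a : Finset (Order.succ κ).ord.ToType // a.card = n + 1} :=
    ⟨insert ξ t, by rw [Finset.card_insert_of_notMem hξt, htc]⟩
  have hmax : a.1.max' (hne a) = ξ := by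
    apply le_antisymm
    · refine Finset.max'_le _ _ _ fun x hx => ?_
      rcases Finset.mem_insert.1 hx with rfl | hx
      · exact le_rfl
      · exact (hAξ _ (htA _ hx)).le
    · exact Finset.le_max' _ _ (Finset.mem_insert_self _ _)
  have h2 := hhom a (by
    intro x hx
    rcases Finset.mem_insert.1 hx with rfl | hx
    · exact hξ
    · exact hAH (htA _ hx))
  have h3 : (a.1.erase (a.1.max' (hne a))).image (e (a.1.max' (hne a))) = s.1 := by
    rw [hmax]
    show ((insert ξ t).erase ξ).image (e ξ) = s.1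
    rw [Finset.erase_insert hξt, htimg]
  rw [← h2]
  congr 1
  exact Subtype.ext h3.symm

/-- **The converse of the stepping-up lemma under GCH, without side conditions.** Assume GCH. Let
`κ` be an infinite cardinal, `n ≥ 2`, `2 ≤ γ < κ`, and let `η_k` (`k < γ`) be cardinals with
`n < η_k ≤ κ`. If `κ ↛ (η_k; k < γ)^n` then `2 ^ κ ↛ (η_k ∔ 1; k < γ)^(n+1)`. -/
theorem result (hGCH : ∀ μ : Cardinal.{u}, ℵ₀ ≤ μ → (2 : Cardinal.{u}) ^ μ = Order.succ μ)
    (κ : Cardinal.{u}) (hκ : ℵ₀ ≤ κ) (n : ℕ) (_hn : 2 ≤ n) (γ : Cardinal.{u}) (_hγ : 2 ≤ γ)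
    (_hγκ : γ < κ) (η : γ.ord.ToType → Cardinal.{u})
    (_hη : ∀ k, (n : Cardinal.{u}) < η k ∧ η k ≤ κ)
    (h : ¬ Arrow κ γ (fun k => (η k).ord) n) :
    ¬ Arrow (2 ^ κ) γ (fun k => Order.succ (η k).ord) (n + 1) := by
  rw [hGCH κ hκ]
  exact step κ γ hκ n η h

end Pool.Agent.Results.MP_2e9b9b_lc.SteppingUpConverse
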